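import Mathlib
import Pool.Agent.H.MP_ba3dea_co.Main
import Pool.Agent.H.MP_b6d87d_co.C
set_option autoImplicit false
set_option linter.constructorNameAsVariable false

namespace Pool.Agent.Results.MP_961c17_co.No
open Finset

/-- `G` with every vertex of `U` expanded into a triangle: a vertex `v ∉ U` stays as `(v, v)`, a vertex
`v ∈ U` becomes the triangle on the pairs `(v, w)`, where `(v, w)` carries the edge-end of `vw` at `v`. -/
def Exp {V : Type} (G : SimpleGraph V) (U : Set V) :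
    SimpleGraph {p : V × V // (p.1 ∉ U ∧ p.2 = p.1) ∨ (p.1 ∈ U ∧ G.Adj p.1 p.2)} where
  Adj p q := (p.1.1 = q.1.1 ∧ p.1.2 ≠ q.1.2) ∨
    (G.Adj p.1.1 q.1.1 ∧ (p.1.1 ∈ U → p.1.2 = q.1.1) ∧ (q.1.1 ∈ U → q.1.2 = p.1.1))
  symm := ⟨fun _ _ h => h.imp (fun a => ⟨a.1.symm, a.2.symm⟩) fun a => ⟨a.1.symm, a.2.2, a.2.1⟩⟩
  loopless := ⟨fun _ h => h.elim (fun a => a.2 rfl) fun a => a.1.ne rfl⟩

/-- Four perfect matchings cover all edges. -/
def Cov4 {W : Type} (H : SimpleGraph W) : Prop :=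
  ∃ M : Fin 4 → H.Subgraph, (∀ k, (M k).IsPerfectMatching) ∧ ∀ e ∈ H.edgeSet, ∃ k, e ∈ (M k).edgeSet

open Classical in
theorem ec {V : Type} [Fintype V] (G : SimpleGraph V)
    (c : ∀ T : Finset V, T.card < 3 → (G.induce (T : Set V)ᶜ).Connected)
    (d : ∀ v, (G.neighborSet v).ncard = 3) : G.IsEdgeConnected 3 := by
  intro u v s hs
  by_contra n
  obtain ⟨S, hS⟩ : ∃ S : V → Prop, S = (G.deleteEdges s).Reachable u := ⟨_, rfl⟩
  rw [← hS] at n
  have u0 : S u := hS ▸ .rfl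
  obtain ⟨D, hD⟩ : ∃ D : Finset (V × V), ∀ p, p ∈ D ↔ S p.1 ∧ ¬S p.2 ∧ G.Adj p.1 p.2 :=
    ⟨univ.filter fun p => S p.1 ∧ ¬S p.2 ∧ G.Adj p.1 p.2, by simp⟩
  have d1 : D.card < 3 := by
    have : (D : Set (V × V)).encard ≤ s.encard := Set.encard_le_encard_of_injOn (f := fun p => s(p.1, p.2))
      (fun p hp => by_contra fun t => by
        obtain ⟨a, b, e⟩ := (hD p).1 hp
        exact b (hS ▸ (hS ▸ a : (G.deleteEdges s).Reachable u _).trans
          (SimpleGraph.deleteEdges_adj.2 ⟨e, t⟩).reachable))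
      fun p hp q hq e => by
        rcases Sym2.eq_iff.1 e with e | e
        · exact Prod.ext e.1 e.2
        · exact absurd (e.1 ▸ ((hD p).1 hp).1) ((hD q).1 hq).2.1
    have := this.trans_lt hs
    rw [Set.encard_coe_eq_coe_finsetCard] at this
    exact_mod_cast this
  have d2 := (card_image_le (s := D) (f := Prod.fst)).trans_lt d1
  have t : ∀ x, x ∈ D.image Prod.fst ↔ S x ∧ ∃ y, ¬S y ∧ G.Adj x y := fun x => by simp [hD]
  obtain ⟨z, z1, z2⟩ : ∃ z, S z ∧ z ∉ D.image Prod.fst := by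
    by_contra! k
    have q : ∀ a b c, G.Adj u a → G.Adj u b → G.Adj u c → a ≠ b → a ≠ c → b ≠ c → ¬S a :=
      fun a b c a1 b1 c1 ab ac bc sa => by
        have r : ∀ b, G.Adj u b → a ≠ b → ¬S b := fun b b1 ab sb => d2.not_ge
          (two_lt_card_iff.2 ⟨u, a, b, k u u0, k a sa, k b sb, a1.ne, b1.ne, ab⟩)
        obtain ⟨-, y, y1, y2⟩ := (t a).1 (k a sa)
        exact d1.not_ge (two_lt_card_iff.2 ⟨(u, b), (u, c), (a, y), (hD _).2 ⟨u0, r b b1 ab, b1⟩,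
          (hD _).2 ⟨u0, r c c1 ac, c1⟩, (hD _).2 ⟨sa, y1, y2⟩, by simp [bc], by simp [a1.ne],
          by simp [a1.ne]⟩)
    obtain ⟨a, b, c, ab, ac, bc, e⟩ := Set.ncard_eq_three.1 (d u)
    have a1 : G.Adj u a := e.ge (by simp)
    have b1 : G.Adj u b := e.ge (by simp)
    have c1 : G.Adj u c := e.ge (by simp)
    exact d1.not_ge (two_lt_card_iff.2 ⟨(u, a), (u, b), (u, c), (hD _).2 ⟨u0, q a b c a1 b1 c1 ab ac bc, a1⟩,
      (hD _).2 ⟨u0, q b a c b1 a1 c1 ab.symm bc ac, b1⟩,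
      (hD _).2 ⟨u0, q c a b c1 a1 b1 ac.symm bc.symm ab, c1⟩, by simp [ab], by simp [ac], by simp [bc]⟩)
  exact n (Pool.Agent.H.MP_b6d87d_co.cl (fun x => S x.1) (fun a b e sa => by_contra fun sb =>
    a.2 ((t _).2 ⟨sa, _, sb, e⟩)) (c _ d2 ⟨z, z2⟩ ⟨v, fun h => n ((t v).1 h).1⟩) z1)

open Classical in
theorem loc {V : Type} {G : SimpleGraph V} {U : Set V} (M : Fin 4 → (Exp G U).Subgraph)
    (h1 : ∀ k, (M k).IsPerfectMatching) (h2 : ∀ e ∈ (Exp G U).edgeSet, ∃ k, e ∈ (M k).edgeSet)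
    (v : V) (n : Fin 3 → V) (i : n.Injective) (a : ∀ w, G.Adj v w ↔ ∃ j, n j = w) :
    ∃ y : Fin 4 → Option (Fin 3), (∀ k j, (∃ p q, (M k).Adj p q ∧ p.1.1 = v ∧ q.1.1 = n j) ↔
      y k = some j ∨ y k = none) ∧ (∀ j, ∃ k, y k = some j) ∧ (v ∉ U → ∀ k, y k ≠ none) := by
  have a0 : ∀ j, G.Adj v (n j) := fun j => (a _).2 ⟨j, rfl⟩
  have h3 : ∀ p q, (Exp G U).Adj p q → ∃ k, (M k).Adj p q := fun p q e => h2 s(p, q) e
  have h4 := fun k => SimpleGraph.Subgraph.isPerfectMatching_iff.1 (h1 k)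
  by_cases hv : v ∈ U
  · obtain ⟨x, hx⟩ : ∃ x : Fin 3 → {p : V × V // (p.1 ∉ U ∧ p.2 = p.1) ∨ (p.1 ∈ U ∧ G.Adj p.1 p.2)},
      ∀ j, (x j).1 = (v, n j) := ⟨fun j => ⟨(v, n j), Or.inr ⟨hv, a0 j⟩⟩, fun _ => rfl⟩
    have b : ∀ k j, (∃ p q, (M k).Adj p q ∧ p.1.1 = v ∧ q.1.1 = n j) ↔ ∀ l, ¬(M k).Adj (x j) (x l) :=
      fun k j => by
        constructor
        · rintro ⟨p, q, e, p1, q1⟩ l f
          rcases (M k).adj_sub e with t | t
          · exact (a0 j).ne (p1.symm.trans (t.1.trans q1))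
          · obtain rfl : p = x j := Subtype.ext (by
              rw [hx]; exact Prod.ext p1 ((t.2.1 (p1 ▸ hv)).trans q1))
            rw [(h4 k _).unique e f, hx] at q1
            exact (a0 j).ne q1
        · intro t
          obtain ⟨q, e⟩ := (h4 k (x j)).exists
          refine ⟨_, q, e, by rw [hx], ?_⟩
          rcases (M k).adj_sub e with r | r <;> rw [hx] at r
          · obtain ⟨l, f⟩ := (a _).1 (r.1 ▸ (q.2.resolve_left fun s => s.1 (r.1 ▸ hv)).2 :)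
            exact absurd e (Subtype.ext (show q.1 = (x l).1 by
              rw [hx]; exact Prod.ext r.1.symm f.symm) ▸ t l)
          · exact (r.2.1 hv).symm
    have c : ∀ k, ∃ y : Option (Fin 3), (∀ j, (∀ l, ¬(M k).Adj (x j) (x l)) ↔ y = some j ∨ y = none) ∧
        ∀ j, (M k).Adj (x (j + 1)) (x (j + 2)) → y = some j := fun k => by
      have u : ∀ j l m, (M k).Adj (x j) (x l) → (M k).Adj (x j) (x m) → l = m := fun j l m e f =>
        i (congrArg Prod.snd ((hx l).symm.trans ((congrArg _ ((h4 k _).unique e f)).trans (hx m))))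
      obtain ⟨A, hA⟩ : ∃ A : Fin 3 → Fin 3 → Bool, ∀ j l, (M k).Adj (x j) (x l) ↔ A j l :=
        ⟨fun j l => decide ((M k).Adj (x j) (x l)), by simp⟩
      have s : ∀ j l, A j l = true → j ≠ l ∧ A l j = true := fun j l e =>
        ⟨fun t => ((hA _ _).2 e).ne (t ▸ rfl), (hA _ _).1 ((hA _ _).2 e).symm⟩
      simp only [hA] at u ⊢
      clear hA
      revert A
      decide +kernel
    choose y y1 y2 using c
    refine ⟨y, fun k j => (b k j).trans (y1 k j), fun j => (h3 (x (j + 1)) (x (j + 2)) (Or.inl ?_)).imp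
      fun k => y2 k j, fun t => absurd hv t⟩
    rw [hx, hx]
    exact ⟨rfl, fun e => absurd (i e) ((by decide : ∀ j : Fin 3, j + 1 ≠ j + 2) j)⟩
  · obtain ⟨x, hx⟩ : ∃ x : {p : V × V // (p.1 ∉ U ∧ p.2 = p.1) ∨ (p.1 ∈ U ∧ G.Adj p.1 p.2)},
      x.1 = (v, v) := ⟨⟨(v, v), Or.inl ⟨hv, rfl⟩⟩, rfl⟩
    have b : ∀ p : {p : V × V // (p.1 ∉ U ∧ p.2 = p.1) ∨ (p.1 ∈ U ∧ G.Adj p.1 p.2)}, p.1.1 = v → p = x :=
      fun p e => Subtype.ext (by
        rw [hx]; exact Prod.ext e ((p.2.resolve_right fun s => hv (e ▸ s.1)).2.trans e))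
    have c : ∀ k, ∃ y, ∀ j, (∃ p q, (M k).Adj p q ∧ p.1.1 = v ∧ q.1.1 = n j) ↔ y = j := fun k => by
      obtain ⟨q, e, f⟩ := h4 k x
      rcases (M k).adj_sub e with r | r
      · exact absurd (b q (r.1.symm.trans (by rw [hx]))) ((M k).adj_sub e).ne'
      · obtain ⟨y, t⟩ := (a _).1 (by simpa [hx] using r.1)
        refine ⟨y, fun j => ⟨?_, fun s => ⟨x, q, e, by rw [hx], s ▸ t.symm⟩⟩⟩
        rintro ⟨p, q', e', p1, q1⟩
        exact i (t.trans (f q' (b p p1 ▸ e') ▸ q1))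
    choose y y1 using c
    refine ⟨fun k => some (y k), fun k j => (y1 k j).trans (by simp), fun j => ?_, by simp⟩
    obtain ⟨q, q1, q2⟩ : ∃ q, (Exp G U).Adj x q ∧ q.1.1 = n j := by
      by_cases t : n j ∈ U
      · exact ⟨⟨(n j, v), Or.inr ⟨t, (a0 j).symm⟩⟩, Or.inr (by simp [hx, a0, hv]), rfl⟩
      · exact ⟨⟨(n j, n j), Or.inl ⟨t, rfl⟩⟩, Or.inr (by simp [hx, a0, hv, t]), rfl⟩
    exact (h3 x q q1).imp fun k e => congrArg some ((y1 k j).1 ⟨x, q, e, by rw [hx], q2⟩)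

open Pool.Agent.H.MP_ba3dea_co

def ee (v : Fin 60) (j : Fin 3) : ℕ := ![e1 v, e2 v, e3 v] j

def nn (v : Fin 60) (j : Fin 3) : Fin 60 := if s (ee v j) = v then t (ee v j) else s (ee v j)

theorem f1 : ∀ v, (nn v).Injective ∧ ∀ j, ee v j < 90 ∧ ed (ee v j) = s(v, nn v j) := by decide +kernel

theorem f2 : ∀ i < 90, (∃ j, ee (s i) j = i ∧ nn (s i) j = t i) ∧ ∃ j, nn (t i) j = s i := by decide +kernel

theorem f3 (v w : Fin 60) : G.Adj v w ↔ ∃ j, nn v j = w := by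
  rw [adj_iff]
  refine ⟨fun ⟨i, a, b⟩ => ?_, fun ⟨j, e⟩ => ⟨_, ((f1 v).2 j).1, e ▸ ((f1 v).2 j).2⟩⟩
  rcases Sym2.eq_iff.1 b with ⟨rfl, rfl⟩ | ⟨rfl, rfl⟩
  exacts [(f2 i a).1.imp fun _ h => h.2, (f2 i a).2]

theorem f5 : ∀ i < 90, ((univ ×ˢ univ).filter fun p : Fin 60 × Fin 3 => ee p.1 p.2 = i).card = 2 := by
  decide +kernel

def bb (y : Fin 4 → Option (Fin 3)) (j : Fin 3) (k : Fin 4) : ℕ := if y k = some j ∨ y k = none then 1 else 0

def xx (b : Fin 4 → ℕ) (k : Fin 4) : ℕ := ((if ∑ l, b l = 2 then 1 else 0) + b k) % 2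

theorem f4 : ∀ y : Fin 4 → Option (Fin 3), (∀ j, ∃ k, y k = some j) →
    (∀ k, (xx (bb y 0) k + xx (bb y 1) k + xx (bb y 2) k) % 2 = 0) ∧
    (∀ j, 1 ≤ ∑ k, xx (bb y j) k ∧ ∑ k, xx (bb y j) k ≤ 2) ∧
    ∑ j, ∑ k, xx (bb y j) k ≤ 4 + if ∀ k, y k ≠ none then 0 else 2 := by decide +kernel

open Classical in
theorem result : ∃ G : SimpleGraph (Fin 60), (∀ v, (G.neighborSet v).ncard = 3) ∧ G.IsEdgeConnected 3 ∧
    ∃ F : List (Σ v, G.Walk v v), (∀ C ∈ F, C.2.IsCycle) ∧ (∀ e ∈ G.edgeSet, ∃ C ∈ F, e ∈ C.2.edges) ∧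
      ∀ U : Set (Fin 60), Cov4 (Exp G U) →
        3 * (F.map fun C => C.2.length).sum < 4 * G.edgeSet.ncard + 3 * U.ncard := by
  have d : ∀ v, (G.neighborSet v).ncard = 3 := fun v => by
    rw [show G.neighborSet v = Set.range (nn v) from Set.ext (f3 v), Set.ncard_range_of_injective (f1 v).1]
    simp
  refine ⟨G, d, ec G conn d, cov, cov_cyc, fun e he => ?_, fun U ⟨M, h1, h2⟩ => ?_⟩
  · obtain ⟨i, hi, rfl⟩ := (mem_iff e).1 he
    exact cov_cov i hi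
  have e : G.edgeSet.ncard = 90 := by
    rw [show G.edgeSet = ed '' Set.Iio 90 from Set.ext mem_iff,
      Set.InjOn.ncard_image (s := Set.Iio 90) fun i a j b => ed_inj i j a b]
    simp
  choose y y1 y2 y3 using fun v => loc M h1 h2 v (nn v) (f1 v).1 (f3 v)
  obtain ⟨b, hb⟩ : ∃ b : ℕ → Fin 4 → ℕ, ∀ v j, b (ee v j) = bb (y v) j := ⟨fun i k =>
    if ∃ p q, (M k).Adj p q ∧ p.1.1 = s i ∧ q.1.1 = t i then 1 else 0, fun v j => funext fun k => by
      refine if_congr (Iff.trans ?_ (y1 v k j)) rfl rfl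
      rcases Sym2.eq_iff.1 ((f1 v).2 j).2 with ⟨p, q⟩ | ⟨p, q⟩ <;> rw [p, q]
      exact ⟨fun ⟨p, q, a, b, c⟩ => ⟨q, p, a.symm, c, b⟩, fun ⟨p, q, a, b, c⟩ => ⟨q, p, a.symm, c, b⟩⟩⟩
  have k := low (fun k i => xx (b i) k) (List.finRange 4) (fun k _ i => by
      have : xx (b i) k < 2 := Nat.mod_lt _ two_pos
      simp only [List.mem_cons, List.not_mem_nil, or_false]
      omega) (fun k _ v => by
      have := (f4 _ (y2 v)).1 k
      rwa [← hb, ← hb, ← hb] at this) (fun i => ∑ k, xx (b i) k) (fun i => Fin.sum_univ_def _)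
    fun i hi => by
      obtain ⟨j, a, -⟩ := (f2 i hi).1
      rw [← a, hb]
      exact (f4 _ (y2 _)).2.1 j
  obtain ⟨W, hW⟩ : ∃ W : ℕ → ℕ, ∀ i, ∑ k, xx (b i) k = W i := ⟨_, fun _ => rfl⟩
  have k1 : ∑ v, ∑ j, W (ee v j) ≤ ∑ v : Fin 60, (4 + if v ∈ U then 2 else 0) := sum_le_sum fun v _ => by
    have := (f4 _ (y2 v)).2.2
    simp only [← hb, hW] at this
    refine this.trans (Nat.add_le_add_left ?_ _)
    by_cases t : v ∈ U
    · rw [if_pos t]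
      split_ifs <;> omega
    · rw [if_pos (y3 v t)]
      exact Nat.zero_le _
  have k2 : ∑ v, ∑ j, W (ee v j) = ∑ i ∈ range 90, W i * 2 := by
    rw [← sum_product', ← sum_fiberwise_of_maps_to (g := fun p : Fin 60 × Fin 3 => ee p.1 p.2) (t := range 90)
      fun p _ => mem_range.2 ((f1 _).2 _).1]
    refine sum_congr rfl fun i hi => ?_
    rw [sum_congr rfl (g := fun _ => W i) fun p hp => congrArg W (mem_filter.1 hp).2, sum_const,
      smul_eq_mul, mul_comm, f5 i (mem_range.1 hi)]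
  rw [k2, ← sum_mul, sum_add_distrib, ← sum_filter, sum_const, sum_const] at k1
  simp only [hW] at k
  rw [card_univ, Fintype.card_fin, smul_eq_mul, smul_eq_mul, ← Set.ncard_coe_finset, coe_filter_univ] at k1
  rw [cov_len, e]
  change _ ≤ _ + U.ncard * 2 at k1
  omega

end Pool.Agent.Results.MP_961c17_co.No
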